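import Pool.Agent.L0h30.TG.Stm

/-! # Project TG, module PUSH -/

set_option autoImplicit false

namespace Pool.Agent.L0h30.TG

/-- two groups as a family indexed by `Bool` -/
def pushFam (G1 G2 : Type) : Bool → Type
  | true => G1
  | false => G2

instance pushFamGroup (G1 G2 : Type) [h1 : Group G1] [h2 : Group G2] (i : Bool) :
    Group (pushFam G1 G2 i) :=
  match i with
  | true => h1
  | false => h2

/-- two homomorphisms as a family -/
def pushHom {H G1 G2 : Type} [Group H] [Group G1] [Group G2] (f : H →* G1) (g : H →* G2) :
    (i : Bool) → H →* pushFam G1 G2 i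
  | true => f
  | false => g

theorem push_amalgam {H G1 G2 : Type} [Group H] [Group G1] [Group G2] (f : H →* G1) (g : H →* G2)
    (hf : Function.Injective f) (hg : Function.Injective g) :
    ∃ (K : Type) (_ : Group K) (i1 : G1 →* K) (i2 : G2 →* K), Function.Injective i1 ∧
      ∀ h, i1 (f h) = i2 (g h) := by
  have hinj : ∀ i, Function.Injective (pushHom f g i) := by
    intro i
    cases i
    · exact hg
    · exact hf
  refine ⟨Monoid.PushoutI (pushHom f g), inferInstance,
    (Monoid.PushoutI.of (φ := pushHom f g) true : pushFam G1 G2 true →* _),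
    (Monoid.PushoutI.of (φ := pushHom f g) false : pushFam G1 G2 false →* _), ?_, ?_⟩
  · exact Monoid.PushoutI.of_injective hinj true
  · intro h
    have h1 := Monoid.PushoutI.of_apply_eq_base (pushHom f g) true h
    have h2 := Monoid.PushoutI.of_apply_eq_base (pushHom f g) false h
    exact h1.trans h2.symm

theorem push : S_PUSH := by
  classical
  intro X w S hw hE1 hE2
  set N : Set X.ι := {n | n ∈ S ∧ X.Γ.Adj w n} with hN
  obtain ⟨t1, ht1, ht1v, ht1e⟩ := hE1
  obtain ⟨t2, ht2, ht2v, ht2e⟩ := hE2
  obtain ⟨K, hK, i1, i2, hi1, hi⟩ := push_amalgam t1 t2 ht1 ht2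
  have hNS : N ⊆ S := fun n hn => hn.1
  have hNw : insert w N ⊆ insert w S := Set.insert_subset_insert hNS
  have hmono : ∀ (A B : Set X.ι) (e : X.Γ.edgeSet), A ⊆ B → Ins X A e → Ins X B e :=
    fun A B e hAB h v hv => hAB (h v hv)
  have hcomp : ∀ n ∈ N, ∀ x : X.A n, i2 (X.vA (insert w N) n x) = i1 (X.vA S n x) := by
    intro n hn x
    rw [← ht1v n hn x, ← ht2v n hn x, hi]
  -- the map from `U (insert w S)` to the amalgam
  obtain ⟨ψ, hψv, hψe⟩ := GC.lift X (insert w S) (K := K)
    (fun v => if v ∈ S then i1.comp (X.vA S v) else i2.comp (X.vA (insert w N) v))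
    (fun e => if Ins X S e then i1.comp (X.eB S e) else i2.comp (X.eB (insert w N) e))
    (by
      intro v e hv he x
      by_cases hS : Ins X S e
      · have hvS : v ∈ S := hS v hv
        simp only [hS, hvS, if_true, MonoidHom.comp_apply]
        rw [GC.rel_in X S v e hv hS x]
      · have h1 : ∃ u, u ∈ (e : Sym2 X.ι) ∧ u ∉ S := by
          by_contra hcon
          push Not at hcon
          exact hS (fun u hu => hcon u hu)
        obtain ⟨u, hu, huS⟩ := h1
        have huw : u = w := by
          rcases he u hu with h | h
          · exact h
          · exact absurd h huS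
        subst huw
        obtain ⟨n, hn⟩ := Sym2.mem_iff_exists.1 hu
        have hadj : X.Γ.Adj u n := by
          have h2 := e.2
          rw [hn] at h2
          exact (SimpleGraph.mem_edgeSet X.Γ).1 h2
        have hne : n ∈ (e : Sym2 X.ι) := by
          rw [hn]
          exact Sym2.mem_mk_right _ _
        have hnS : n ∈ S := by
          rcases he n hne with h | h
          · exact absurd h hadj.ne'
          · exact h
        have hnN : n ∈ N := ⟨hnS, hadj⟩
        have hIns : Ins X (insert u N) e := by
          intro z hz
          rw [hn, Sym2.mem_iff] at hz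
          rcases hz with rfl | rfl
          · exact Set.mem_insert _ _
          · exact Set.mem_insert_of_mem _ hnN
        have h3 := GC.rel_in X (insert u N) v e hv hIns x
        have hv' := hv
        rw [hn, Sym2.mem_iff] at hv'
        rcases hv' with h | h
        · have hvS : v ∉ S := by rw [h]; exact huS
          simp only [hS, hvS, if_false, MonoidHom.comp_apply]
          rw [h3]
        · have hvS : v ∈ S := by rw [h]; exact hnS
          have hvN : v ∈ N := by rw [h]; exact hnN
          simp only [hS, hvS, if_false, if_true, MonoidHom.comp_apply]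
          rw [h3, hcomp v hvN x])
    (by
      intro v hv x
      have hvS : v ∉ S := fun h => hv (Set.mem_insert_of_mem _ h)
      have hvN : v ∉ insert w N := fun h => hv (hNw h)
      simp only [hvS, if_false, MonoidHom.comp_apply]
      rw [GC.rel_v X _ v hvN x, map_one])
    (by
      intro e he y
      have heS : ¬ Ins X S e := fun h => he (hmono _ _ e (Set.subset_insert _ _) h)
      have heN : ¬ Ins X (insert w N) e := fun h => he (hmono _ _ e hNw h)
      simp only [heS, if_false, MonoidHom.comp_apply]
      rw [GC.rel_e X _ e heN y, map_one])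
  -- the natural map
  obtain ⟨σ, hσv, hσe⟩ := GC.lift X S (K := X.U (insert w S))
    (fun v => if v ∈ S then X.vA (insert w S) v else 1)
    (fun e => if Ins X S e then X.eB (insert w S) e else 1)
    (by
      intro v e hv he x
      have hvS : v ∈ S := he v hv
      simp only [he, hvS, if_true]
      exact GC.rel_in X _ v e hv (hmono _ _ e (Set.subset_insert _ _) he) x)
    (by
      intro v hv x
      simp only [hv, if_false, MonoidHom.one_apply])
    (by
      intro e he y
      simp only [he, if_false, MonoidHom.one_apply])
  have hcompσ : ψ.comp σ = i1 := by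
    apply GC.ext X S
    · intro v x
      rw [MonoidHom.comp_apply, hσv]
      by_cases hv : v ∈ S
      · simp only [hv, if_true]
        rw [hψv]
        simp only [hv, if_true, MonoidHom.comp_apply]
      · simp only [hv, if_false, MonoidHom.one_apply, map_one]
        rw [GC.rel_v X S v hv x, map_one]
    · intro e y
      rw [MonoidHom.comp_apply, hσe]
      by_cases he : Ins X S e
      · simp only [he, if_true]
        rw [hψe]
        simp only [he, if_true, MonoidHom.comp_apply]
      · simp only [he, if_false, MonoidHom.one_apply, map_one]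
        rw [GC.rel_e X S e he y, map_one]
  refine ⟨σ, ?_, ?_, ?_⟩
  · intro a b hab
    apply hi1
    rw [← hcompσ, MonoidHom.comp_apply, MonoidHom.comp_apply, hab]
  · intro v hv x
    rw [hσv]
    simp only [hv, if_true]
  · intro e he y
    rw [hσe]
    simp only [he, if_true]

end Pool.Agent.L0h30.TG
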